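import Pool.Agent.Helper3.MT.LOGS
import Pool.Agent.Helper21.MT7.Stmts

/-!
# MT7: `ST_LOG7`, the logarithm of a general unipotent matrix
-/

set_option autoImplicit false
set_option maxHeartbeats 800000

namespace MT

section

variable {K₀ : Type} [Field K₀] {n : ℕ}

/-- the logarithm is `T` times an invertible matrix. -/
theorem lg_unit (t : Matrix (Fin n) (Fin n) K₀) (ht : (t - 1) ^ n = 0) :
    ∃ u v : Matrix (Fin n) (Fin n) K₀, lg t = (t - 1) * u ∧ Commute (t - 1) u ∧ IsUnit u ∧
      u = 1 + (t - 1) * v := by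
  set T := t - 1 with hT
  rcases Nat.lt_or_ge n 2 with h2 | h2
  · refine ⟨1, 0, ?_, Commute.one_right _, isUnit_one, by rw [mul_zero, add_zero]⟩
    rcases Nat.lt_or_ge n 1 with h1 | h1
    · have h0 : n = 0 := by omega
      subst h0
      exact Subsingleton.elim _ _
    · have h0 : n = 1 := by omega
      subst h0
      rw [pow_one] at ht
      unfold lg
      rw [Finset.sum_range_one, Nat.cast_zero, div_zero, zero_smul, ht, zero_mul]
  · obtain ⟨m, rfl⟩ : ∃ m, n = m + 2 := ⟨n - 2, by omega⟩
    have hv : Commute T (∑ k ∈ Finset.range m,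
        ((-1) ^ (k + 1 + 1 + 1) / ((k + 1 + 1 : ℕ) : K₀)) • T ^ k) := by
      apply Commute.sum_right
      intro k _
      exact (Commute.pow_right (Commute.refl T) k).smul_right _
    set v := ∑ k ∈ Finset.range m, ((-1) ^ (k + 1 + 1 + 1) / ((k + 1 + 1 : ℕ) : K₀)) • T ^ k with hvd
    have hnil : IsNilpotent (T * v) := ⟨m + 2, by rw [hv.mul_pow, ht, zero_mul]⟩
    refine ⟨1 + T * v, v, ?_, ?_, hnil.isUnit_one_add, rfl⟩
    · unfold lg
      rw [Finset.sum_range_succ', Finset.sum_range_succ']
      rw [Nat.cast_zero, div_zero, zero_smul, add_zero]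
      have h3 : (((-1) ^ (0 + 1 + 1) / ((0 + 1 : ℕ) : K₀)) • (t - 1) ^ (0 + 1) :
          Matrix (Fin (m + 2)) (Fin (m + 2)) K₀) = T := by
        rw [← hT]
        norm_num
      rw [h3, mul_add, mul_one, add_comm T]
      congr 1
      rw [hvd, Finset.mul_sum, Finset.mul_sum]
      apply Finset.sum_congr rfl
      intro k _
      rw [Matrix.mul_smul, Matrix.mul_smul, ← pow_succ', ← pow_succ']
    · exact (Commute.one_right T).add_right ((Commute.refl T).mul_right hv)

theorem lg_rank (t : Matrix (Fin n) (Fin n) K₀) (ht : (t - 1) ^ n = 0) (k : ℕ) :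
    (lg t ^ k).rank = ((t - 1) ^ k).rank := by
  obtain ⟨u, v, h1, h2, h3, -⟩ := lg_unit t ht
  rw [h1, h2.mul_pow]
  apply Matrix.rank_mul_eq_left_of_isUnit_det
  rw [Matrix.det_pow]
  exact ((Matrix.isUnit_iff_isUnit_det _).mp h3).pow k

theorem lg_sq (t : Matrix (Fin n) (Fin n) K₀) (ht : (t - 1) ^ n = 0) (h : (t - 1) ^ 2 = 0) :
    lg t = t - 1 := by
  obtain ⟨u, v, h1, h2, h3, h4⟩ := lg_unit t ht
  rw [h1, h4, mul_add, mul_one, ← mul_assoc, ← pow_two, h, zero_mul, add_zero]

theorem lg_form [CharZero K₀] (t ψ : Matrix (Fin n) (Fin n) K₀) (ht : (t - 1) ^ n = 0)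
    (h : t.transpose * ψ * t = ψ) : (lg t).transpose * ψ + ψ * lg t = 0 := by
  have h0 : ∀ m : ℕ, (t ^ m).transpose * ψ * t ^ m = ψ := by
    intro m
    induction m with
    | zero => rw [pow_zero, Matrix.transpose_one, one_mul, mul_one]
    | succ m ih =>
      calc (t ^ (m + 1)).transpose * ψ * t ^ (m + 1)
          = t.transpose * ((t ^ m).transpose * ψ * t ^ m) * t := by
            rw [pow_succ, Matrix.transpose_mul]
            simp only [mul_assoc]
        _ = ψ := by rw [ih, h]
  have he : ∀ m : ℕ, (opg (t - 1)).map (Polynomial.eval (m : K₀)) = t ^ m := by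
    intro m
    have h1 := opg_eval (t - 1) ht m
    rw [add_sub_cancel] at h1
    rw [← h1]
    ext i j
    rw [Matrix.map_apply, Matrix.map_apply, Polynomial.coe_aeval_eq_eval]
  have h1 : ∀ i j, ∑ b, (∑ a, opg (t - 1) a i * Polynomial.C (ψ a b)) * opg (t - 1) b j =
      Polynomial.C (ψ i j) := by
    intro i j
    apply Polynomial.eq_of_infinite_eval_eq
    apply Set.infinite_of_injective_forall_mem (f := fun m : ℕ => (m : K₀)) Nat.cast_injective
    intro m
    show Polynomial.eval (m : K₀) _ = Polynomial.eval (m : K₀) _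
    rw [Polynomial.eval_C, Polynomial.eval_finsetSum]
    have h2 := congrFun (congrFun (h0 m) i) j
    rw [← he m, Matrix.mul_apply] at h2
    rw [← h2]
    apply Finset.sum_congr rfl
    intro b _
    rw [Polynomial.eval_mul, Polynomial.eval_finsetSum, Matrix.mul_apply, Matrix.map_apply]
    congr 1
    apply Finset.sum_congr rfl
    intro a _
    rw [Polynomial.eval_mul, Polynomial.eval_C, Matrix.transpose_apply, Matrix.map_apply]
  have hz : ∀ i j, Polynomial.eval 0 (opg (t - 1) i j) = (1 : Matrix (Fin n) (Fin n) K₀) i j := by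
    intro i j
    have h2 := congrFun (congrFun (he 0) i) j
    rw [Nat.cast_zero, pow_zero, Matrix.map_apply] at h2
    exact h2
  have hd : ∀ i j, Polynomial.eval 0 (Polynomial.derivative (opg (t - 1) i j)) = lg t i j := by
    intro i j
    have h2 := opg_der (t - 1) i j
    rw [Polynomial.coe_aeval_eq_eval] at h2
    exact h2
  ext i j
  have h3 := congrArg (fun q => Polynomial.eval 0 (Polynomial.derivative q)) (h1 i j)
  simp only [Polynomial.derivative_sum, Polynomial.derivative_mul, Polynomial.derivative_C,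
    mul_zero, add_zero, Polynomial.eval_finsetSum, Polynomial.eval_add, Polynomial.eval_mul,
    Polynomial.eval_C, Polynomial.eval_zero, hz, hd] at h3
  rw [Matrix.add_apply, Matrix.mul_apply, Matrix.mul_apply, Matrix.zero_apply, ← h3,
    Finset.sum_add_distrib]
  congr 1
  · symm
    rw [Finset.sum_eq_single j]
    · rw [Matrix.one_apply_eq, mul_one]
      rfl
    · intro b _ hb
      rw [Matrix.one_apply_ne hb, mul_zero]
    · intro hj
      exact absurd (Finset.mem_univ j) hj
  · apply Finset.sum_congr rfl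
    intro b _
    congr 1
    rw [Finset.sum_eq_single i]
    · rw [Matrix.one_apply_eq, one_mul]
    · intro a _ ha
      rw [Matrix.one_apply_ne ha, zero_mul]
    · intro hj
      exact absurd (Finset.mem_univ i) hj

end

theorem st_LOG7 : ST_LOG7 := by
  intro K₀ _ _ n X t ht h1
  refine ⟨lg (t : Matrix (Fin n) (Fin n) K₀), ?_, lg_rank _ h1, lg_sq _ h1, fun ψ h2 =>
    lg_form _ ψ h1 h2⟩
  rw [lieZ_eq]
  exact lg_mem X t ht h1

end MT
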