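import Pool.Agent.Helper3.MT.ZARS
import Pool.Agent.Helper8.MT.SIM
import Pool.Agent.Helper21.MT7.Stmts

/-!
# MT7: `ST_SIM7`, similitudes of symmetric forms in even dimension
-/

set_option autoImplicit false
set_option maxHeartbeats 800000

namespace MT

section

variable {K₀ : Type} [Field K₀] {n : ℕ}

/-- scalar matrices -/
def scm {K : Type} [Field K] (n : ℕ) (c : K) (hc : c ≠ 0) : Matrix.GeneralLinearGroup (Fin n) K :=
  ⟨c • 1, c⁻¹ • 1, by rw [Matrix.smul_mul, Matrix.one_mul, smul_smul, mul_inv_cancel₀ hc, one_smul],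
    by rw [Matrix.smul_mul, Matrix.one_mul, smul_smul, inv_mul_cancel₀ hc, one_smul]⟩

theorem scm_coe {K : Type} [Field K] (n : ℕ) (c : K) (hc : c ≠ 0) :
    ((scm n c hc : Matrix.GeneralLinearGroup (Fin n) K) : Matrix (Fin n) (Fin n) K) = c • 1 := rfl

theorem scm_mul {K : Type} [Field K] (n : ℕ) (c : K) (hc : c ≠ 0)
    (g : Matrix.GeneralLinearGroup (Fin n) K) :
    ((scm n c hc * g : Matrix.GeneralLinearGroup (Fin n) K) : Matrix (Fin n) (Fin n) K) =
      c • (g : Matrix (Fin n) (Fin n) K) := by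
  rw [Units.val_mul, scm_coe, Matrix.smul_mul, Matrix.one_mul]

theorem iso_inv {K : Type} [Field K] (ψ : Matrix (Fin n) (Fin n) K)
    (g : Matrix.GeneralLinearGroup (Fin n) K)
    (h : (g : Matrix (Fin n) (Fin n) K).transpose * ψ * (g : Matrix (Fin n) (Fin n) K) = ψ) :
    ((g⁻¹ : Matrix.GeneralLinearGroup (Fin n) K) : Matrix (Fin n) (Fin n) K).transpose * ψ *
      ((g⁻¹ : Matrix.GeneralLinearGroup (Fin n) K) : Matrix (Fin n) (Fin n) K) = ψ := by
  have h1 : (g : Matrix (Fin n) (Fin n) K) *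
      ((g⁻¹ : Matrix.GeneralLinearGroup (Fin n) K) : Matrix (Fin n) (Fin n) K) = 1 := by
    rw [← Units.val_mul, mul_inv_cancel, Units.val_one]
  have h2 : ((g⁻¹ : Matrix.GeneralLinearGroup (Fin n) K) : Matrix (Fin n) (Fin n) K).transpose *
      (g : Matrix (Fin n) (Fin n) K).transpose = 1 := by
    rw [← Matrix.transpose_mul, h1, Matrix.transpose_one]
  calc ((g⁻¹ : Matrix.GeneralLinearGroup (Fin n) K) : Matrix (Fin n) (Fin n) K).transpose * ψ *
      ((g⁻¹ : Matrix.GeneralLinearGroup (Fin n) K) : Matrix (Fin n) (Fin n) K)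
      = ((g⁻¹ : Matrix.GeneralLinearGroup (Fin n) K) : Matrix (Fin n) (Fin n) K).transpose *
        ((g : Matrix (Fin n) (Fin n) K).transpose * ψ * (g : Matrix (Fin n) (Fin n) K)) *
      ((g⁻¹ : Matrix.GeneralLinearGroup (Fin n) K) : Matrix (Fin n) (Fin n) K) := by rw [h]
    _ = (((g⁻¹ : Matrix.GeneralLinearGroup (Fin n) K) : Matrix (Fin n) (Fin n) K).transpose *
      (g : Matrix (Fin n) (Fin n) K).transpose) * ψ * ((g : Matrix (Fin n) (Fin n) K) *
      ((g⁻¹ : Matrix.GeneralLinearGroup (Fin n) K) : Matrix (Fin n) (Fin n) K)) := by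
        simp only [Matrix.mul_assoc]
    _ = ψ := by rw [h1, h2, Matrix.one_mul, Matrix.mul_one]

/-- membership in the closure does not depend on the field -/
theorem zc_base {K L : Type} [Field K] [Field L] [Algebra K₀ K] [Algebra K₀ L] [Algebra K L]
    [IsScalarTower K₀ K L] (X : Set (Matrix.GeneralLinearGroup (Fin n) K₀))
    (g : Matrix.GeneralLinearGroup (Fin n) K) (g' : Matrix.GeneralLinearGroup (Fin n) L)
    (h : (g' : Matrix (Fin n) (Fin n) L) = (g : Matrix (Fin n) (Fin n) K).map (algebraMap K L)) :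
    g' ∈ ZC X L ↔ g ∈ ZC X K := by
  have h1 : ∀ f : MvPolynomial (Fin n × Fin n) K₀, ev (g' : Matrix (Fin n) (Fin n) L) f =
      algebraMap K L (ev (g : Matrix (Fin n) (Fin n) K) f) := by
    intro f
    rw [h]
    exact (ev_mapA (K₀ := K₀) (IsScalarTower.toAlgHom K₀ K L) (g : Matrix (Fin n) (Fin n) K) f).symm
  constructor
  · intro h2 f hf
    have h3 := h2 f hf
    rw [h1] at h3
    exact (map_eq_zero _).mp h3
  · intro h2 f hf
    rw [h1, h2 f hf, map_zero]

/-- multipliers of similitudes -/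
theorem sim_det {K : Type} [Field K] (ψ g : Matrix (Fin n) (Fin n) K) (c : K) (hψ : ψ.det ≠ 0)
    (h : g.transpose * ψ * g = c • ψ) : g.det * g.det = c ^ n := by
  have h1 := congrArg Matrix.det h
  rw [Matrix.det_mul, Matrix.det_mul, Matrix.det_transpose, Matrix.det_smul, Fintype.card_fin] at h1
  apply mul_right_cancel₀ hψ
  rw [← h1]
  ring

theorem sim_ne {K : Type} [Field K] (hn : n ≠ 0) (ψ : Matrix (Fin n) (Fin n) K)
    (g : Matrix.GeneralLinearGroup (Fin n) K) (c : K) (hψ : ψ.det ≠ 0)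
    (h : (g : Matrix (Fin n) (Fin n) K).transpose * ψ * (g : Matrix (Fin n) (Fin n) K) = c • ψ) :
    c ≠ 0 := by
  rintro rfl
  have h1 := sim_det ψ _ 0 hψ h
  rw [zero_pow hn, mul_self_eq_zero] at h1
  exact ((Matrix.isUnit_iff_isUnit_det _).mp g.isUnit).ne_zero h1

end

theorem st_SIM7 : ST_SIM7 := by
  intro K₀ _ _ n ψ X hψ hev hX hinf hiso K _ _ g c hg hdet
  by_cases hn : n = 0
  · subst hn
    apply hiso K g
    · exact Subsingleton.elim _ _
    · exact Matrix.det_isEmpty
  obtain ⟨k, hk⟩ := hev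
  have hk2 : n / 2 = k := by omega
  rw [hk2] at hdet
  set I : Set (MvPolynomial (Fin n × Fin n) K₀) :=
    {f | ∀ x ∈ X, ev (x : Matrix (Fin n) (Fin n) K₀) f = 0} with hI
  -- scalars over the ground field
  have hsc : ∀ c : K₀, (∃ x ∈ X, (x : Matrix (Fin n) (Fin n) K₀).transpose * ψ *
      (x : Matrix (Fin n) (Fin n) K₀) = c • ψ) → ZZ I (c • (1 : Matrix (Fin n) (Fin n) K₀)) := by
    rintro c ⟨x, hx, hxc⟩
    have hc0 : c ≠ 0 := sim_ne hn ψ x c hψ hxc
    have hd := sim_det ψ _ c hψ hxc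
    set s := scm n c⁻¹ (inv_ne_zero hc0) with hs
    set z := x * x with hz
    have hy : ((s * z : Matrix.GeneralLinearGroup (Fin n) K₀) : Matrix (Fin n) (Fin n) K₀) =
        c⁻¹ • ((x : Matrix (Fin n) (Fin n) K₀) * (x : Matrix (Fin n) (Fin n) K₀)) := by
      rw [hs, scm_mul, hz, Units.val_mul]
    have hyi : ((s * z : Matrix.GeneralLinearGroup (Fin n) K₀) :
        Matrix (Fin n) (Fin n) K₀).transpose * ψ *
        ((s * z : Matrix.GeneralLinearGroup (Fin n) K₀) : Matrix (Fin n) (Fin n) K₀) = ψ := by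
      rw [hy, Matrix.transpose_smul, Matrix.smul_mul, Matrix.smul_mul, Matrix.mul_smul,
        Matrix.transpose_mul]
      have h1 : (x : Matrix (Fin n) (Fin n) K₀).transpose *
          (x : Matrix (Fin n) (Fin n) K₀).transpose * ψ *
          ((x : Matrix (Fin n) (Fin n) K₀) * (x : Matrix (Fin n) (Fin n) K₀)) =
          (x : Matrix (Fin n) (Fin n) K₀).transpose *
            ((x : Matrix (Fin n) (Fin n) K₀).transpose * ψ * (x : Matrix (Fin n) (Fin n) K₀)) *
              (x : Matrix (Fin n) (Fin n) K₀) := by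
        simp only [Matrix.mul_assoc]
      rw [h1, hxc, Matrix.mul_smul, Matrix.smul_mul, hxc, smul_smul, smul_smul, smul_smul]
      have h2 : c⁻¹ * c⁻¹ * c * c = 1 := by
        rw [mul_assoc, mul_mul_mul_comm, inv_mul_cancel₀ hc0, one_mul]
      rw [h2, one_smul]
    have hyd : ((s * z : Matrix.GeneralLinearGroup (Fin n) K₀) :
        Matrix (Fin n) (Fin n) K₀).det = 1 := by
      rw [hy, Matrix.det_smul, Fintype.card_fin, Matrix.det_mul, hd, ← mul_pow, inv_mul_cancel₀ hc0,
        one_pow]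
    have hyi' := iso_inv ψ _ hyi
    have hyd' : (((s * z)⁻¹ : Matrix.GeneralLinearGroup (Fin n) K₀) :
        Matrix (Fin n) (Fin n) K₀).det = 1 := by
      have h3 : (((s * z)⁻¹ : Matrix.GeneralLinearGroup (Fin n) K₀) :
        Matrix (Fin n) (Fin n) K₀).det * ((s * z : Matrix.GeneralLinearGroup (Fin n) K₀) :
        Matrix (Fin n) (Fin n) K₀).det = 1 := by
        rw [← Matrix.det_mul, ← Units.val_mul, inv_mul_cancel, Units.val_one, Matrix.det_one]
      rw [hyd, mul_one] at h3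
      exact h3
    have hψ' : ψ.map (algebraMap K₀ K₀) = ψ := by
      ext i j
      rfl
    have hmem := hiso K₀ (s * z)⁻¹ (by rw [hψ']; exact hyi') hyd'
    have hzX : z ∈ ZC (X : Set (Matrix.GeneralLinearGroup (Fin n) K₀)) K₀ := by
      intro f hf
      exact hf z (X.mul_mem hx hx)
    have hprod := zc_mul X _ _ hzX hmem
    have h4 : z * (s * z)⁻¹ = s⁻¹ := by
      rw [mul_inv_rev, mul_inv_cancel_left]
    rw [h4] at hprod
    intro f hf
    have h5 := hprod f hf
    have h6 : ((s⁻¹ : Matrix.GeneralLinearGroup (Fin n) K₀) : Matrix (Fin n) (Fin n) K₀) =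
        c • (1 : Matrix (Fin n) (Fin n) K₀) := by
      show (c⁻¹)⁻¹ • (1 : Matrix (Fin n) (Fin n) K₀) = _
      rw [inv_inv]
    rw [h6] at h5
    exact h5
  -- the algebraic closure
  set L := AlgebraicClosure K with hL
  have hinfL : {c : L | ZZ I (c • (1 : Matrix (Fin n) (Fin n) L))}.Infinite := by
    have h1 := hinf.image (f := algebraMap K₀ L) (FaithfulSMul.algebraMap_injective K₀ L).injOn
    refine h1.mono ?_
    rintro _ ⟨c, hc, rfl⟩
    intro f hf
    have h2 := ev_mapA (K₀ := K₀) (Algebra.ofId K₀ L) (c • (1 : Matrix (Fin n) (Fin n) K₀)) f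
    have h3 : (c • (1 : Matrix (Fin n) (Fin n) K₀)).map (Algebra.ofId K₀ L) =
        (algebraMap K₀ L c) • (1 : Matrix (Fin n) (Fin n) L) := by
      ext i j
      rw [Matrix.map_apply, Matrix.smul_apply, Matrix.smul_apply, smul_eq_mul, smul_eq_mul,
        map_mul, Matrix.one_apply, Matrix.one_apply]
      split_ifs
      · rw [map_one]
        rfl
      · rw [map_zero, mul_zero, mul_zero]
    rw [h3, hsc c hc f hf, map_zero] at h2
    exact h2.symm
  have hall := sim_scalar I hinfL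
  have hψK : (ψ.map (algebraMap K₀ K)).det ≠ 0 := by
    have h1 : (ψ.map (algebraMap K₀ K)).det = algebraMap K₀ K ψ.det := by
      rw [← RingHom.mapMatrix_apply, ← RingHom.map_det]
    rw [h1]
    exact (map_ne_zero _).mpr hψ
  have hc0 : c ≠ 0 := sim_ne hn _ g c hψK hg
  obtain ⟨ν, hν⟩ := IsAlgClosed.exists_pow_nat_eq (algebraMap K L c) (n := 2) (by norm_num)
  have hν0 : ν ≠ 0 := by
    rintro rfl
    rw [zero_pow (by norm_num)] at hν
    exact hc0 ((map_eq_zero _).mp hν.symm)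
  set g' : Matrix.GeneralLinearGroup (Fin n) L := Matrix.GeneralLinearGroup.map (algebraMap K L) g
    with hg'
  have hg'c : (g' : Matrix (Fin n) (Fin n) L) =
      (g : Matrix (Fin n) (Fin n) K).map (algebraMap K L) := rfl
  rw [← zc_base (X : Set (Matrix.GeneralLinearGroup (Fin n) K₀)) g g' hg'c]
  have hmap : ∀ M : Matrix (Fin n) (Fin n) K₀,
      (M.map (algebraMap K₀ K)).map (algebraMap K L) = M.map (algebraMap K₀ L) := by
    intro M
    ext i j
    simp only [Matrix.map_apply]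
    rw [← IsScalarTower.algebraMap_apply K₀ K L]
  have hst : (g' : Matrix (Fin n) (Fin n) L).transpose * ψ.map (algebraMap K₀ L) *
      (g' : Matrix (Fin n) (Fin n) L) = (ν ^ 2) • ψ.map (algebraMap K₀ L) := by
    have h1 := congrArg (fun M : Matrix (Fin n) (Fin n) K => M.map (algebraMap K L)) hg
    simp only [Matrix.map_mul, hmap] at h1
    rw [hg'c, ← Matrix.transpose_map, h1, hν]
    ext i j
    simp only [Matrix.map_apply, Matrix.smul_apply, smul_eq_mul, map_mul]
    rw [← IsScalarTower.algebraMap_apply K₀ K L]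
  set s := scm n ν⁻¹ (inv_ne_zero hν0) with hs
  have hmem := hiso L (s * g') (by
    rw [hs, scm_mul, Matrix.transpose_smul, Matrix.smul_mul, Matrix.smul_mul, Matrix.mul_smul, hst,
      smul_smul, smul_smul]
    have h1 : ν⁻¹ * ν⁻¹ * ν ^ 2 = 1 := by
      rw [pow_two, mul_mul_mul_comm, inv_mul_cancel₀ hν0, one_mul]
    rw [h1, one_smul]) (by
    rw [hs, scm_mul, Matrix.det_smul, Fintype.card_fin, hg'c]
    have h1 : ((g : Matrix (Fin n) (Fin n) K).map (algebraMap K L)).det =
        algebraMap K L (g : Matrix (Fin n) (Fin n) K).det := by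
      rw [← RingHom.mapMatrix_apply, ← RingHom.map_det]
    rw [h1, hdet, map_pow, ← hν, hk, ← pow_mul, ← two_mul, inv_pow,
      inv_mul_cancel₀ (pow_ne_zero _ hν0)])
  have hsi : s⁻¹ ∈ ZC (X : Set (Matrix.GeneralLinearGroup (Fin n) K₀)) L := by
    intro f hf
    have h6 : ((s⁻¹ : Matrix.GeneralLinearGroup (Fin n) L) : Matrix (Fin n) (Fin n) L) =
        ν • (1 : Matrix (Fin n) (Fin n) L) := by
      show (ν⁻¹)⁻¹ • (1 : Matrix (Fin n) (Fin n) L) = _
      rw [inv_inv]
    rw [h6]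
    exact hall ν f hf
  have hfin := zc_mul X _ _ hsi hmem
  rw [inv_mul_cancel_left] at hfin
  exact hfin

end MT
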